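import Mathlib

set_option autoImplicit false

/-!
# Perfect images of paralindelof spaces

A closed continuous image, with Lindelof fibres, of a paralindelof space is paralindelof. In
particular perfect images of paralindelof spaces are paralindelof.
-/

namespace Pool.Agent.Results.MP_6bd103_gt.PerfectImages

open Set Topology

universe u v

/-- A family of subsets of a space is locally countable if every point has an open neighbourhood
which meets at most countably many of its members. -/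
def LocallyCountable {X : Type u} [TopologicalSpace X] (𝒱 : Set (Set X)) : Prop :=
  ∀ x : X, ∃ N : Set X, IsOpen N ∧ x ∈ N ∧ {V | V ∈ 𝒱 ∧ (N ∩ V).Nonempty}.Countable

/-- A space is paralindelof if every open cover has a locally countable open refinement (which is
again a cover). -/
def Paralindelof (X : Type u) [TopologicalSpace X] : Prop :=
  ∀ 𝒰 : Set (Set X), (∀ U ∈ 𝒰, IsOpen U) → ⋃₀ 𝒰 = univ →
    ∃ 𝒱 : Set (Set X), (∀ V ∈ 𝒱, IsOpen V) ∧ ⋃₀ 𝒱 = univ ∧ (∀ V ∈ 𝒱, ∃ U ∈ 𝒰, V ⊆ U) ∧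
      LocallyCountable 𝒱

/-- Every locally countable indexed family of subsets of a paralindelof space has a locally
countable open expansion. -/
theorem expand {X : Type u} [TopologicalSpace X] (hX : Paralindelof X) {ι : Type v}
    (B : ι → Set X)
    (hB : ∀ x : X, ∃ N : Set X, IsOpen N ∧ x ∈ N ∧ {i | (N ∩ B i).Nonempty}.Countable) :
    ∃ G : ι → Set X, (∀ i, IsOpen (G i)) ∧ (∀ i, B i ⊆ G i) ∧
      ∀ x : X, ∃ N : Set X, IsOpen N ∧ x ∈ N ∧ {i | (N ∩ G i).Nonempty}.Countable := by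
  obtain ⟨𝒪, h1, h2, h3, h4⟩ := hX {N | IsOpen N ∧ {i | (N ∩ B i).Nonempty}.Countable}
    (fun N hN => hN.1) (by
      rw [eq_univ_iff_forall]
      intro x
      obtain ⟨N, hN, hx, hc⟩ := hB x
      exact ⟨N, ⟨hN, hc⟩, hx⟩)
  refine ⟨fun i => ⋃₀ {O | O ∈ 𝒪 ∧ (O ∩ B i).Nonempty}, ?_, ?_, ?_⟩
  · intro i
    exact isOpen_sUnion fun O hO => h1 O hO.1
  · intro i x hx
    have hxO : x ∈ ⋃₀ 𝒪 := by rw [h2]; trivial
    obtain ⟨O, hO, hxO⟩ := hxO
    exact ⟨O, ⟨hO, x, hxO, hx⟩, hxO⟩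
  · intro x
    obtain ⟨N, hN, hx, hc⟩ := h4 x
    refine ⟨N, hN, hx, ?_⟩
    have h5 : (⋃ O ∈ {V | V ∈ 𝒪 ∧ (N ∩ V).Nonempty}, {i | (O ∩ B i).Nonempty}).Countable := by
      refine hc.biUnion fun O hO => ?_
      obtain ⟨O', hO', hsub⟩ := h3 O hO.1
      exact hO'.2.mono fun i hi => hi.mono (inter_subset_inter_left _ hsub)
    refine h5.mono ?_
    rintro i ⟨z, hzN, O, ⟨hO, hOB⟩, hzO⟩
    simp only [mem_iUnion]
    exact ⟨O, ⟨hO, z, hzN, hzO⟩, hOB⟩

/-- The points whose fibre is contained in an open set form an open set. -/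
theorem isOpen_star {X : Type u} {Y : Type v} [TopologicalSpace X] [TopologicalSpace Y]
    {f : X → Y} (hc : IsClosedMap f) {S : Set X} (hS : IsOpen S) :
    IsOpen {y | f ⁻¹' {y} ⊆ S} := by
  have : {y | f ⁻¹' {y} ⊆ S} = (f '' Sᶜ)ᶜ := by
    ext y
    simp only [mem_ofPred_eq, mem_compl_iff, mem_image, not_exists, not_and]
    constructor
    · intro h x hx hxy
      exact hx (h hxy)
    · intro h x hx
      by_contra hxS
      exact h x hxS hx
  rw [this]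
  exact (hc _ hS.isClosed_compl).isOpen_compl

/-- Images of locally countable families under closed maps with Lindelof fibres are locally
countable. -/
theorem image_locallyCountable {X : Type u} {Y : Type v} [TopologicalSpace X]
    [TopologicalSpace Y] {f : X → Y} (hc : IsClosedMap f)
    (hL : ∀ y, IsLindelof (f ⁻¹' {y})) {ι : Type u} (B : ι → Set X)
    (hB : ∀ x : X, ∃ N : Set X, IsOpen N ∧ x ∈ N ∧ {i | (N ∩ B i).Nonempty}.Countable) (y : Y) :
    ∃ N : Set Y, IsOpen N ∧ y ∈ N ∧ {i | (N ∩ f '' B i).Nonempty}.Countable := by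
  choose N hN hx hct using hB
  obtain ⟨t, ht1, ht2, ht3⟩ := (hL y).elim_countable_subcover_image (b := f ⁻¹' {y}) (c := N)
    (fun x _ => hN x) (fun x hxy => mem_iUnion₂.2 ⟨x, hxy, hx x⟩)
  refine ⟨{z | f ⁻¹' {z} ⊆ ⋃ x ∈ t, N x}, isOpen_star hc (isOpen_biUnion fun x _ => hN x), ht3, ?_⟩
  refine (ht2.biUnion fun x _ => hct x).mono ?_
  rintro i ⟨z, hz, w, hw, rfl⟩
  obtain ⟨x, hxt, hwx⟩ := mem_iUnion₂.1 (hz (show w ∈ f ⁻¹' {f w} from rfl))
  simp only [mem_iUnion]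
  exact ⟨x, hxt, w, hwx, hw⟩

/-- Let `X` be paralindelof and let `f : X → Y` be a closed continuous surjection with Lindelof
fibres (for example a perfect mapping). Then `Y` is paralindelof. -/
theorem result {X Y : Type u} [TopologicalSpace X] [TopologicalSpace Y] (f : X → Y)
    (hX : Paralindelof X) (hf : Continuous f) (hc : IsClosedMap f) (hs : Function.Surjective f)
    (hL : ∀ y, IsCompact (f ⁻¹' {y}) ∨ IsLindelof (f ⁻¹' {y})) : Paralindelof Y := by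
  have hL' : ∀ y, IsLindelof (f ⁻¹' {y}) := fun y => (hL y).elim IsCompact.isLindelof id
  intro 𝒰 h𝒰 hcov
  -- a locally countable open refinement upstairs
  obtain ⟨𝒲, h1, h2, h3, h4⟩ := hX {W | ∃ U ∈ 𝒰, W = f ⁻¹' U}
    (by rintro _ ⟨U, hU, rfl⟩; exact (h𝒰 U hU).preimage hf) (by
      rw [eq_univ_iff_forall]
      intro x
      have hx : f x ∈ ⋃₀ 𝒰 := by rw [hcov]; trivial
      obtain ⟨U, hU, hxU⟩ := hx
      exact ⟨f ⁻¹' U, ⟨U, hU, rfl⟩, hxU⟩)
  have h4' : ∀ x : X, ∃ N : Set X, IsOpen N ∧ x ∈ N ∧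
      {W : 𝒲 | (N ∩ W.1).Nonempty}.Countable := by
    intro x
    obtain ⟨N, hN, hx, hct⟩ := h4 x
    refine ⟨N, hN, hx, ?_⟩
    refine Set.MapsTo.countable_of_injOn (f := Subtype.val) (t := {V | V ∈ 𝒲 ∧ (N ∩ V).Nonempty})
      ?_ Subtype.val_injective.injOn hct
    exact fun W hW => ⟨W.2, hW⟩
  have hU : ∀ W : 𝒲, ∃ U ∈ 𝒰, W.1 ⊆ f ⁻¹' U := by
    rintro ⟨W, hW⟩
    obtain ⟨_, ⟨U, hU, rfl⟩, hWU⟩ := h3 W hW
    exact ⟨U, hU, hWU⟩
  choose U hU1 hU2 using hU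
  -- the images form a locally countable cover
  have h5 := image_locallyCountable hc hL' (fun W : 𝒲 => W.1) h4'
  -- the preimages of the images can be expanded
  obtain ⟨G, hG1, hG2, hG3⟩ := expand hX (fun W : 𝒲 => f ⁻¹' (f '' W.1)) (by
    intro x
    obtain ⟨N, hN, hx, hct⟩ := h5 (f x)
    refine ⟨f ⁻¹' N, hN.preimage hf, hx, hct.mono ?_⟩
    rintro W ⟨z, hz1, hz2⟩
    exact ⟨f z, hz1, hz2⟩)
  have h6 := image_locallyCountable hc hL' G hG3
  refine ⟨{V | ∃ W : 𝒲, V = {y | f ⁻¹' {y} ⊆ G W} ∩ U W}, ?_, ?_, ?_, ?_⟩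
  · rintro _ ⟨W, rfl⟩
    exact (isOpen_star hc (hG1 W)).inter (h𝒰 _ (hU1 W))
  · rw [eq_univ_iff_forall]
    intro y
    obtain ⟨x, rfl⟩ := hs y
    have hx : x ∈ ⋃₀ 𝒲 := by rw [h2]; trivial
    obtain ⟨W, hW, hxW⟩ := hx
    refine ⟨_, ⟨⟨W, hW⟩, rfl⟩, ?_, hU2 ⟨W, hW⟩ hxW⟩
    intro z hz
    refine hG2 ⟨W, hW⟩ ?_
    have hz' : f z = f x := hz
    exact ⟨x, hxW, hz'.symm⟩
  · rintro _ ⟨W, rfl⟩
    exact ⟨U W, hU1 W, inter_subset_right⟩
  · intro y
    obtain ⟨N, hN, hy, hct⟩ := h6 y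
    refine ⟨N, hN, hy, ?_⟩
    refine (hct.image fun W => {y | f ⁻¹' {y} ⊆ G W} ∩ U W).mono ?_
    rintro _ ⟨⟨W, rfl⟩, z, hzN, hz1, hz2⟩
    obtain ⟨x, rfl⟩ := hs z
    exact ⟨W, ⟨f x, hzN, x, hz1 rfl, rfl⟩, rfl⟩

end Pool.Agent.Results.MP_6bd103_gt.PerfectImages
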